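import Pool.Agent.H367R3.GSLines
import Pool.Agent.H367R3.GSForest

set_option autoImplicit false

namespace Pool.Agent.Results.MP_27ff1b_co.LinesGyarfasSumner

open Pool.Agent.H367R3

/-- For every dimension `d` and every forest `F` there is a function `f` such that every finite
intersection graph `G` of distinct lines in `ℝ^d` with no induced copy of `F` satisfies
`χ(G) ≤ f (ω(G))`. -/
theorem result :
    ∀ d : ℕ, ∀ (m : ℕ) (F : SimpleGraph (Fin m)), F.IsAcyclic →
      ∃ f : ℕ → ℕ, ∀ (V : Type) [Finite V] (G : SimpleGraph V),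
        IsLineIntersectionGraph d G → ¬ Nonempty (F ↪g G) →
          G.chromaticNumber ≤ f G.cliqueNum := by
  intro d m F hF
  obtain ⟨f, hf⟩ :=
    gyarfas_sumner_forest.{0} ((d + d * d + 2) * (d + d * d + 2)) m F hF
  exact ⟨f, fun V _ G hG hFG => hf V G (lines_no_halfGraph d G hG) hFG⟩

end Pool.Agent.Results.MP_27ff1b_co.LinesGyarfasSumner
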